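import Pool.Agent.H295R3.W.Stmts

set_option autoImplicit false

open Finset ArithmeticFunction

namespace Pool.Agent.H630R3.W

open Pool.Agent.H295R3.W

theorem fo_apply (n : ℕ) : fo n = if n % 2 = 1 then f n else 0 := rfl

theorem fo_mult : fo.IsMultiplicative := by
  refine ⟨?_, ?_⟩
  · rw [fo_apply]
    simp [f]
  · intro m n hmn
    by_cases hm : m = 0
    · subst hm
      simp [fo_apply]
    by_cases hn : n = 0
    · subst hn
      simp [fo_apply]
    rw [fo_apply, fo_apply, fo_apply]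
    have h1 : (m * n) % 2 = 1 ↔ m % 2 = 1 ∧ n % 2 = 1 := by
      rw [← Nat.odd_iff, ← Nat.odd_iff, ← Nat.odd_iff]
      exact Nat.odd_mul
    by_cases h2 : m % 2 = 1
    · by_cases h3 : n % 2 = 1
      · rw [if_pos (h1.2 ⟨h2, h3⟩), if_pos h2, if_pos h3]
        unfold f
        rw [cardFactors_mul hm hn, pow_add]
      · rw [if_neg (fun h => h3 (h1.1 h).2), if_neg h3, mul_zero]
    · rw [if_neg (fun h => h2 (h1.1 h).1), if_neg h2, zero_mul]

theorem g_mult : g.IsMultiplicative :=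
  (isMultiplicative_zeta.natCast.mul isMultiplicative_zeta.natCast).mul fo_mult

theorem g_pow {p : ℕ} (hp : p.Prime) (k : ℕ) :
    g (p ^ k) = ∑ j ∈ range (k + 1), ∑ l ∈ range (j + 1), fo (p ^ l) := by
  have h1 : g = ((zeta : ArithmeticFunction ℕ) : ArithmeticFunction ℝ) *
      (((zeta : ArithmeticFunction ℕ) : ArithmeticFunction ℝ) * fo) := by
    rw [← mul_assoc]
    rfl
  rw [h1, coe_zeta_mul_apply, Nat.sum_divisors_prime_pow hp]
  refine Finset.sum_congr rfl fun j _ => ?_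
  rw [coe_zeta_mul_apply, Nat.sum_divisors_prime_pow hp]

theorem fo_pow_odd {p : ℕ} (hp : p.Prime) (h2 : p ≠ 2) (l : ℕ) : fo (p ^ l) = (-2 : ℝ) ^ l := by
  rw [fo_apply, if_pos (Nat.odd_iff.1 (hp.odd_of_ne_two h2).pow), f,
    cardFactors_apply_prime_pow hp]

theorem g_pow_odd {p : ℕ} (hp : p.Prime) (h2 : p ≠ 2) (k : ℕ) :
    g (p ^ k) = (3 * k + 5 + 4 * (-2 : ℝ) ^ k) / 9 := by
  rw [g_pow hp]
  have h : ∀ j : ℕ, ∑ l ∈ range (j + 1), fo (p ^ l) = (1 - (-2 : ℝ) ^ (j + 1)) / 3 := by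
    intro j
    induction j with
    | zero => rw [Finset.sum_range_one, fo_pow_odd hp h2]; norm_num
    | succ j ih => rw [Finset.sum_range_succ, ih, fo_pow_odd hp h2]; ring
  induction k with
  | zero => rw [Finset.sum_range_one, h]; norm_num
  | succ k ih => rw [Finset.sum_range_succ, ih, h]; push_cast; ring

theorem g_pow_two (k : ℕ) : g (2 ^ k) = k + 1 := by
  rw [g_pow Nat.prime_two]
  have h : ∀ j : ℕ, ∑ l ∈ range (j + 1), fo (2 ^ l) = 1 := by
    intro j
    induction j with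
    | zero => rw [Finset.sum_range_one, fo_apply]; simp [f]
    | succ j ih =>
      rw [Finset.sum_range_succ, ih, fo_apply, if_neg, add_zero]
      rw [pow_succ]
      omega
  simp [h]

theorem abs_g_le {p : ℕ} (hp : p.Prime) (h2 : p ≠ 2) (k : ℕ) : |g (p ^ k)| ≤ 2 ^ k := by
  rw [g_pow_odd hp h2, abs_div]
  have h1 : |3 * (k : ℝ) + 5 + 4 * (-2 : ℝ) ^ k| ≤ 3 * k + 5 + 4 * 2 ^ k := by
    refine (abs_add_le _ _).trans ?_
    rw [abs_mul, abs_pow, abs_neg, abs_two, abs_of_nonneg (by positivity : (0:ℝ) ≤ 3 * k + 5)]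
    norm_num
  have h3 : (3 * (k : ℝ) + 5) ≤ 5 * 2 ^ k := by
    have : 3 * k + 5 ≤ 5 * 2 ^ k := by
      clear h1
      induction k with
      | zero => norm_num
      | succ k ih =>
        have : 1 ≤ 2 ^ k := Nat.one_le_two_pow
        rw [pow_succ]
        omega
    exact_mod_cast this
  rw [abs_of_nonneg (by norm_num : (0 : ℝ) ≤ 9), div_le_iff₀ (by norm_num)]
  linarith

/-- the terms -/
noncomputable def F (n : ℕ) : ℝ := |g n| / (n : ℝ) ^ (3 / 4 : ℝ)

theorem F_nonneg (n : ℕ) : 0 ≤ F n := by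
  unfold F
  positivity

theorem F_one : F 1 = 1 := by
  unfold F
  rw [g_mult.1]
  simp

theorem F_mul {m n : ℕ} (h : m.Coprime n) : F (m * n) = F m * F n := by
  unfold F
  rw [g_mult.2 h, abs_mul]
  push_cast
  rw [Real.mul_rpow (by positivity) (by positivity)]
  field_simp

theorem F_pow (p k : ℕ) : F (p ^ k) = |g (p ^ k)| / ((p : ℝ) ^ (3 / 4 : ℝ)) ^ k := by
  unfold F
  push_cast
  rw [← Real.rpow_natCast ((p : ℝ)) k, ← Real.rpow_mul (by positivity),
    ← Real.rpow_natCast ((p : ℝ) ^ (3 / 4 : ℝ)) k, ← Real.rpow_mul (by positivity), mul_comm]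

/-- `2 / p ^ (3/4)` -/
noncomputable def rr (p : ℕ) : ℝ := 2 / (p : ℝ) ^ (3 / 4 : ℝ)

theorem rr_nonneg (p : ℕ) : 0 ≤ rr p := by
  unfold rr
  positivity

theorem rr_le {p : ℕ} (h : 3 ≤ p) : rr p ≤ 9 / 10 := by
  have h3 : (20 / 9 : ℝ) ≤ (3 : ℝ) ^ (3 / 4 : ℝ) := by
    have h4 : ((20 / 9 : ℝ) ^ (4 : ℝ)) ^ (1 / 4 : ℝ) ≤ ((3 : ℝ) ^ (3 : ℝ)) ^ (1 / 4 : ℝ) := by
      apply Real.rpow_le_rpow (by positivity) _ (by norm_num)
      have h5 : (20 / 9 : ℝ) ^ (4 : ℝ) = (20 / 9 : ℝ) ^ 4 := by exact_mod_cast Real.rpow_natCast _ 4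
      have h6 : (3 : ℝ) ^ (3 : ℝ) = (3 : ℝ) ^ 3 := by
        have := Real.rpow_natCast (3 : ℝ) 3
        rw [← this]
        norm_num
      rw [h5, h6]
      norm_num
    rw [← Real.rpow_mul (by norm_num), ← Real.rpow_mul (by norm_num)] at h4
    norm_num at h4
    convert h4 using 2
  have h4 : (3 : ℝ) ^ (3 / 4 : ℝ) ≤ (p : ℝ) ^ (3 / 4 : ℝ) :=
    Real.rpow_le_rpow (by norm_num) (by exact_mod_cast h) (by norm_num)
  unfold rr
  rw [div_le_iff₀ (by positivity)]
  linarith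

theorem F_pow_le {p : ℕ} (hp : p.Prime) (h2 : p ≠ 2) (k : ℕ) : F (p ^ k) ≤ rr p ^ k := by
  rw [F_pow, rr, div_pow]
  have := abs_g_le hp h2 k
  gcongr

theorem three_le {p : ℕ} (hp : p.Prime) (h2 : p ≠ 2) : 3 ≤ p := by
  have := hp.two_le
  omega

theorem summable_pow {p : ℕ} (hp : p.Prime) : Summable (fun k : ℕ => F (p ^ k)) := by
  by_cases h2 : p = 2
  · subst h2
    have h1 : ∀ k : ℕ, F (2 ^ k) = k * (1 / (2 : ℝ) ^ (3 / 4 : ℝ)) ^ k +
        (1 / (2 : ℝ) ^ (3 / 4 : ℝ)) ^ k := by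
      intro k
      rw [F_pow, g_pow_two, abs_of_nonneg (by positivity)]
      push_cast
      rw [one_div, inv_pow]
      field_simp
    have h3 : (1 : ℝ) < (2 : ℝ) ^ (3 / 4 : ℝ) := Real.one_lt_rpow (by norm_num) (by norm_num)
    have h4 : ‖(1 / (2 : ℝ) ^ (3 / 4 : ℝ))‖ < 1 := by
      rw [Real.norm_eq_abs, abs_of_nonneg (by positivity), div_lt_one (by positivity)]
      exact h3
    simp_rw [h1]
    have h5 := summable_pow_mul_geometric_of_norm_lt_one 1 h4
    simp only [pow_one] at h5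
    exact h5.add (summable_geometric_of_norm_lt_one h4)
  · refine Summable.of_nonneg_of_le (fun k => F_nonneg _) (fun k => F_pow_le hp h2 k) ?_
    refine summable_geometric_of_lt_one (rr_nonneg p) ?_
    exact (rr_le (three_le hp h2)).trans_lt (by norm_num)

theorem tsum_le {p : ℕ} (hp : p.Prime) (h2 : p ≠ 2) :
    ∑' k : ℕ, F (p ^ k) ≤ 1 + 40 / (p : ℝ) ^ (3 / 2 : ℝ) := by
  have hs := summable_pow hp
  have hr := rr_le (three_le hp h2)
  have hr0 := rr_nonneg p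
  have h1 : F (p ^ 1) = 0 := by
    rw [F_pow, g_pow_odd hp h2]
    norm_num
  rw [hs.tsum_eq_zero_add, ((summable_nat_add_iff 1).2 hs).tsum_eq_zero_add]
  simp only [pow_zero, zero_add]
  rw [F_one, h1, zero_add]
  have h3 : ∑' k : ℕ, F (p ^ (k + 1 + 1)) ≤ ∑' k : ℕ, rr p ^ 2 * rr p ^ k := by
    refine Summable.tsum_le_tsum (fun k => ?_) ?_ ?_
    · refine (F_pow_le hp h2 (k + 1 + 1)).trans (le_of_eq ?_)
      ring
    · exact (summable_nat_add_iff 2).2 hs
    · exact (summable_geometric_of_lt_one hr0 (hr.trans_lt (by norm_num))).mul_left _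
  have h4 : rr p ^ 2 = 4 / (p : ℝ) ^ (3 / 2 : ℝ) := by
    rw [rr, div_pow, ← Real.rpow_natCast ((p : ℝ) ^ (3 / 4 : ℝ)) 2, ← Real.rpow_mul (by positivity)]
    norm_num
  rw [tsum_mul_left, tsum_geometric_of_lt_one hr0 (hr.trans_lt (by norm_num)), h4] at h3
  have h5 : (1 - rr p)⁻¹ ≤ 10 := by
    rw [inv_le_comm₀ (by linarith) (by norm_num)]
    linarith
  have h6 : 4 / (p : ℝ) ^ (3 / 2 : ℝ) * (1 - rr p)⁻¹ ≤ 4 / (p : ℝ) ^ (3 / 2 : ℝ) * 10 :=
    mul_le_mul_of_nonneg_left h5 (by positivity)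
  have h7 : 4 / (p : ℝ) ^ (3 / 2 : ℝ) * 10 = 40 / (p : ℝ) ^ (3 / 2 : ℝ) := by ring
  linarith

theorem taskG : TaskG := by
  change Summable F
  set A : ℝ := ∑' k : ℕ, F (2 ^ k) with hA
  have hA0 : 0 ≤ A := tsum_nonneg fun k => F_nonneg _
  let b : ℕ → ℝ := fun n => 40 / (n : ℝ) ^ (3 / 2 : ℝ) + (if n = 2 then A else 0)
  have hb0 : ∀ n, 0 ≤ b n := by
    intro n
    have : (0 : ℝ) ≤ if n = 2 then A else 0 := by split_ifs <;> [exact hA0; exact le_rfl]
    have h2 : (0 : ℝ) ≤ 40 / (n : ℝ) ^ (3 / 2 : ℝ) := by positivity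
    exact add_nonneg h2 this
  have hbs : Summable b := by
    refine Summable.add ?_ ?_
    · have := (Real.summable_one_div_nat_rpow (p := 3 / 2)).2 (by norm_num)
      refine (this.mul_left 40).congr fun n => ?_
      ring
    · exact summable_of_ne_finset_zero (s := {2}) fun n hn => by
        rw [if_neg]
        simpa using hn
  have hle : ∀ p : ℕ, p.Prime → ∑' k : ℕ, F (p ^ k) ≤ Real.exp (b p) := by
    intro p hp
    have h0 := Real.add_one_le_exp (b p)
    by_cases h2 : p = 2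
    · subst h2
      have h3 : A ≤ b 2 := by
        have h4 : (0 : ℝ) ≤ 40 / ((2 : ℕ) : ℝ) ^ (3 / 2 : ℝ) := by positivity
        change A ≤ 40 / ((2 : ℕ) : ℝ) ^ (3 / 2 : ℝ) + (if 2 = 2 then A else 0)
        rw [if_pos rfl]
        linarith
      rw [← hA]
      linarith
    · have h3 := tsum_le hp h2
      have h4 : b p = 40 / (p : ℝ) ^ (3 / 2 : ℝ) := by
        change 40 / (p : ℝ) ^ (3 / 2 : ℝ) + (if p = 2 then A else 0) = _
        rw [if_neg h2, add_zero]
      rw [← h4] at h3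
      linarith
  refine summable_of_sum_range_le (c := Real.exp (∑' n, b n)) F_nonneg fun N => ?_
  have hE := EulerProduct.summable_and_hasSum_smoothNumbers_prod_primesBelow_tsum (f := F)
    F_one (fun h => F_mul h) (fun {p} hp => (summable_pow hp).norm) N
  have h1 : ∏ p ∈ N.primesBelow, ∑' n : ℕ, F (p ^ n) ≤ Real.exp (∑' n, b n) := by
    calc ∏ p ∈ N.primesBelow, ∑' n : ℕ, F (p ^ n)
        ≤ ∏ p ∈ N.primesBelow, Real.exp (b p) :=
          Finset.prod_le_prod (fun p _ => tsum_nonneg fun k => F_nonneg _)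
            fun p hp => hle p (Nat.prime_of_mem_primesBelow hp)
      _ = Real.exp (∑ p ∈ N.primesBelow, b p) := (Real.exp_sum _ _).symm
      _ ≤ Real.exp (∑' n, b n) :=
          Real.exp_le_exp.2 (hbs.sum_le_tsum _ fun n _ => hb0 n)
  refine le_trans ?_ h1
  have h2 : HasSum ((N.smoothNumbers : Set ℕ).indicator F)
      (∏ p ∈ N.primesBelow, ∑' n : ℕ, F (p ^ n)) := by
    rw [← hasSum_subtype_iff_indicator]
    exact hE.2
  have h3 : ∑ i ∈ range N, F i = ∑ i ∈ range N, (N.smoothNumbers : Set ℕ).indicator F i := by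
    refine Finset.sum_congr rfl fun i hi => ?_
    rcases Nat.eq_zero_or_pos i with h0 | h0
    · subst h0
      have : F 0 = 0 := by simp [F]
      rw [Set.indicator_apply]
      split_ifs <;> simp [this]
    · rw [Set.indicator_of_mem (Nat.mem_smoothNumbers_of_lt h0 (Finset.mem_range.1 hi))]
  rw [h3]
  exact sum_le_hasSum _ (fun i _ => Set.indicator_nonneg (fun n _ => F_nonneg n) i) h2

end Pool.Agent.H630R3.W
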